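import Pool.Agent.Helper52.SM.Goals

/-!
# Packet CLG of project SM: restriction and normalization
-/

set_option autoImplicit false

namespace Pool.Agent.Helper13.SM

open Pool.Agent.Helper52.SM Pool.Agent.Helper65.CS
open Pool.Agent.Helper78
open scoped Classical

/-- The term is kept. -/
def kp (m : ℕ) (s l : List (ℕ × Bool)) : Bool :=
  l.all fun p => !s.contains (p.1, !p.2) && !l.contains (p.1, !p.2) && !(decide (m ≤ p.1) && p.2)

/-- The new term. -/
def nt (m : ℕ) (s l : List (ℕ × Bool)) : List (ℕ × Bool) :=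
  (l.filter fun p => decide (p.1 < m) && !s.contains p).dedup

theorem kp_iff (m : ℕ) (s l : List (ℕ × Bool)) : kp m s l = true ↔
    ∀ p ∈ l, (p.1, !p.2) ∉ s ∧ (p.1, !p.2) ∉ l ∧ (m ≤ p.1 → p.2 = false) := by
  unfold kp
  rw [List.all_eq_true]
  refine forall₂_congr fun p _ => ?_
  simp only [Bool.and_eq_true, Bool.not_eq_true', List.contains_eq_mem, decide_eq_false_iff_not,
    and_assoc]
  refine and_congr_right fun _ => and_congr_right fun _ => ?_
  by_cases h : m ≤ p.1 <;> simp [h]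

theorem mem_nt (m : ℕ) (s l : List (ℕ × Bool)) (p : ℕ × Bool) :
    p ∈ nt m s l ↔ p ∈ l ∧ p.1 < m ∧ p ∉ s := by
  unfold nt
  rw [List.mem_dedup, List.mem_filter]
  simp

theorem clg_nil {β : Type} (m : ℕ) (s : List (ℕ × Bool)) :
    clg m s ([] : List (List (ℕ × Bool) × β)) = [] := rfl

theorem clg_cons {β : Type} (m : ℕ) (s : List (ℕ × Bool)) (e : List (ℕ × Bool) × β)
    (F : List (List (ℕ × Bool) × β)) :
    clg m s (e :: F) = if kp m s e.1 = true then (nt m s e.1, e.2) :: clg m s F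
      else clg m s F := by
  unfold clg
  rw [List.filter_cons]
  split_ifs with h1 h2 h2
  · rfl
  · exact absurd h1 h2
  · exact absurd h2 h1
  · rfl

theorem mem_clg {β : Type} (m : ℕ) (s : List (ℕ × Bool)) (F : List (List (ℕ × Bool) × β))
    (e' : List (ℕ × Bool) × β) :
    e' ∈ clg m s F ↔ ∃ e ∈ F, kp m s e.1 = true ∧ (nt m s e.1, e.2) = e' := by
  unfold clg
  rw [List.mem_map]
  constructor
  · rintro ⟨e, he, h⟩
    rw [List.mem_filter] at he
    exact ⟨e, he.1, he.2, h⟩
  · rintro ⟨e, he, hk, h⟩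
    exact ⟨e, List.mem_filter.2 ⟨he, hk⟩, h⟩

section
variable {m : ℕ} {s : List (ℕ × Bool)}

theorem uniq (hs : (s.map Prod.fst).Nodup) {v : ℕ} {b b' : Bool} (h : (v, b) ∈ s)
    (h' : (v, b') ∈ s) : b = b' :=
  congrArg Prod.snd (List.inj_on_of_nodup_map hs h h' rfl)

theorem ov_mem (hs : (s.map Prod.fst).Nodup) (b : ℕ → Bool) {p : ℕ × Bool} (h : p ∈ s) :
    ov s b p.1 = p.2 := by
  obtain ⟨v, β⟩ := p
  unfold ov ovb
  cases β
  · have h1 : (v, true) ∉ s := fun h1 => absurd (uniq hs h h1) (by simp)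
    rw [if_neg (by simpa using h1), if_pos (by simpa using h)]
  · rw [if_pos (by simpa using h)]

theorem ov_not (b : ℕ → Bool) {p : ℕ × Bool} (h : p ∉ s) (h' : (p.1, !p.2) ∉ s) :
    ov s b p.1 = b p.1 := by
  obtain ⟨v, β⟩ := p
  unfold ov ovb
  cases β
  · rw [if_neg (by simpa using h'), if_neg (by simpa using h)]
  · rw [if_neg (by simpa using h), if_neg (by simpa using h')]

theorem coins_ge {y : Fin m → Bool} {v : ℕ} (h : m ≤ v) : PM.coins y v = false := by
  unfold PM.coins
  rw [dif_neg (by omega)]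

theorem sat_iff (hs : (s.map Prod.fst).Nodup) (hm : ∀ p ∈ s, p.1 < m)
    (l : List (ℕ × Bool)) (hk : kp m s l = true) (y : Fin m → Bool) :
    (∀ p ∈ nt m s l, PM.coins y p.1 = p.2) ↔ ∀ p ∈ l, ov s (PM.coins y) p.1 = p.2 := by
  rw [kp_iff] at hk
  constructor
  · intro h p hp
    obtain ⟨h1, h2, h3⟩ := hk p hp
    by_cases hps : p ∈ s
    · exact ov_mem hs _ hps
    · rw [ov_not _ hps h1]
      by_cases hpm : p.1 < m
      · exact h p ((mem_nt m s l p).2 ⟨hp, hpm, hps⟩)
      · rw [coins_ge (by omega), h3 (by omega)]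
  · intro h p hp
    obtain ⟨h1, h2, h3⟩ := (mem_nt m s l p).1 hp
    have h4 := h p h1
    rwa [ov_not _ h3 (hk p h1).1] at h4

theorem not_sat (hs : (s.map Prod.fst).Nodup) (hm : ∀ p ∈ s, p.1 < m)
    (l : List (ℕ × Bool)) (hk : ¬ kp m s l = true) (y : Fin m → Bool) :
    ¬ ∀ p ∈ l, ov s (PM.coins y) p.1 = p.2 := by
  intro h
  apply hk
  rw [kp_iff]
  intro p hp
  have h1 := h p hp
  refine ⟨?_, ?_, ?_⟩
  · intro h2
    have h3 := ov_mem hs (PM.coins y) h2
    simp only at h3
    rw [h1] at h3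
    cases p.2 <;> simp at h3
  · intro h2
    have h3 := h _ h2
    simp only at h3
    rw [h1] at h3
    cases p.2 <;> simp at h3
  · intro h2
    have h3 : ∀ β, (p.1, β) ∉ s := fun β h4 => by
      have := hm _ h4
      simp only at this
      omega
    rw [ov_not _ (h3 p.2) (h3 _), coins_ge h2] at h1
    exact h1.symm

end

theorem clgS : ClgStmt := by
  intro β m s F d hs hm
  refine ⟨?_, ?_, ?_⟩
  · unfold clg
    rw [List.length_map]
    exact List.length_filter_le _ _
  · intro e' he'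
    obtain ⟨e, he, hk, rfl⟩ := (mem_clg m s F e').1 he'
    refine ⟨List.nodup_dedup _, ?_, e, he, ?_, rfl⟩
    · intro p hp
      obtain ⟨h1, h2, h3⟩ := (mem_nt m s e.1 p).1 hp
      refine ⟨h2, fun h4 => ?_⟩
      exact ((kp_iff m s e.1).1 hk p h1).2.1 ((mem_nt m s e.1 _).1 h4).1
    · exact ((List.dedup_sublist _).length_le).trans (List.length_filter_le _ _)
  · intro y
    constructor
    · induction F with
      | nil => rfl
      | cons e F ih =>
        rw [clg_cons]
        by_cases hk : kp m s e.1 = true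
        · rw [if_pos hk]
          unfold evg
          rw [ih]
          by_cases h : ∀ p ∈ e.1, ov s (PM.coins y) p.1 = p.2
          · rw [if_pos ((sat_iff hs hm e.1 hk y).2 h), if_pos h]
          · rw [if_neg fun h1 => h ((sat_iff hs hm e.1 hk y).1 h1), if_neg h]
        · rw [if_neg hk, ih]
          conv_rhs => unfold evg
          rw [if_neg (not_sat hs hm e.1 hk y)]
    · rintro ⟨e, he, h⟩
      have hk : kp m s e.1 = true := by
        by_contra hk
        exact not_sat hs hm e.1 hk y h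
      exact ⟨(nt m s e.1, e.2), (mem_clg m s F _).2 ⟨e, he, hk, rfl⟩,
        (sat_iff hs hm e.1 hk y).2 h⟩

end Pool.Agent.Helper13.SM
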